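import Pool.Agent.H.MP_321233_an.Step

set_option autoImplicit false
open Filter Topology Finset Metric

namespace Pool.Agent.H.MP_321233_an

noncomputable abbrev L2 := lp (fun _ : ℕ => ℂ) 2

noncomputable def ee (n : ℕ) : L2 := lp.single 2 n (1 : ℂ)

theorem norm_ee (n : ℕ) : ‖ee n‖ = 1 := by
  unfold ee
  rw [lp.norm_single (by norm_num)]
  simp

noncomputable def ser : FormalMultilinearSeries ℂ ℂ L2 :=
  fun n => ContinuousMultilinearMap.mkPiRing ℂ (Fin n) (ee n)

theorem ser_radius : 1 ≤ ser.radius := by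
  have := ser.le_radius_of_bound 1 (r := 1) fun n => by
    simp [ser, ContinuousMultilinearMap.norm_mkPiRing, norm_ee]
  simpa using this

theorem ser_has : HasFPowerSeriesOnBall ser.sum ser 0 1 :=
  (ser.hasFPowerSeriesOnBall (zero_lt_one.trans_le ser_radius)).mono zero_lt_one ser_radius

theorem eball_one : Metric.eball (0 : ℂ) 1 = ball 0 1 := by
  simpa using Metric.eball_coe (x := (0 : ℂ)) (ε := 1)

theorem ser_apply {z : ℂ} (hz : ‖z‖ < 1) (n : ℕ) : (ser.sum z : ℕ → ℂ) n = z ^ n := by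
  have h := ser_has.hasSum (y := z) (by rw [eball_one]; simpa using hz)
  rw [zero_add] at h
  have h2 := h.mapL (innerSL ℂ (ee n))
  have h3 : HasSum (fun m => innerSL ℂ (ee n) (ser m fun _ => z)) (z ^ n) := by
    have : ∀ m, innerSL ℂ (ee n) (ser m fun _ => z) = if m = n then z ^ n else 0 := by
      intro m
      simp only [ser, ContinuousMultilinearMap.mkPiRing_apply, prod_const, card_univ,
        Fintype.card_fin, map_smul, innerSL_apply_apply, ee, lp.inner_single_left]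
      by_cases h : m = n
      · subst h; simp
      · simp [h, Ne.symm h]
    simp only [this]
    exact hasSum_ite_eq n _
  have h4 := h2.unique h3
  simpa [ee, lp.inner_single_left] using h4

noncomputable def kk (l : ℂ) : L2 := ser.sum (starRingEnd ℂ l)

theorem kk_cont {l : ℂ} (hl : ‖l‖ < 1) : ContinuousAt kk l := by
  have h : AnalyticAt ℂ ser.sum (starRingEnd ℂ l) :=
    ser_has.analyticOnNhd _ (by rw [eball_one]; simpa using hl)
  exact h.continuousAt.comp_of_eq Complex.continuous_conj.continuousAt rfl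

theorem dense_kk (U : Set ℂ) (hU : IsOpen U) (hne : U.Nonempty) (h1 : ∀ l ∈ U, ‖l‖ < 1) :
    (Submodule.span ℂ (kk '' U)).topologicalClosure = ⊤ := by
  rw [Submodule.topologicalClosure_eq_top_iff, Submodule.eq_bot_iff]
  intro f hf
  have h2 := (innerSL ℂ f).comp_hasFPowerSeriesOnBall ser_has
  have h3 := h2.analyticOnNhd
  rw [eball_one] at h3
  obtain ⟨l, hl⟩ := hne
  have h4 : innerSL ℂ f ∘ ser.sum =ᶠ[𝓝 (starRingEnd ℂ l)] 0 := by
    have : starRingEnd ℂ ⁻¹' U ∈ 𝓝 (starRingEnd ℂ l) :=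
      (hU.preimage Complex.continuous_conj).mem_nhds (by simpa using hl)
    filter_upwards [this] with z hz
    have h5 := (Submodule.mem_orthogonal' _ _).1 hf _
      (Submodule.subset_span ⟨starRingEnd ℂ z, hz, rfl⟩)
    simpa [kk] using h5
  have h5 := h3.eqOn_zero_of_preconnected_of_eventuallyEq_zero (convex_ball 0 1).isPreconnected
    (by simpa using h1 l hl) h4
  have h6 := h2.hasFPowerSeriesAt.eq_zero_of_eventually
    (by filter_upwards [ball_mem_nhds (0 : ℂ) one_pos] with z hz using h5 hz)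
  ext n
  have h7 := congrArg (fun p : FormalMultilinearSeries ℂ ℂ ℂ => p n fun _ => 1) h6
  simpa [ser, ee, lp.inner_single_right] using h7

theorem sep_L2 : TopologicalSpace.IsSeparable (Set.univ : Set L2) := by
  have h := ((Set.countable_range ee).isSeparable.span (R := ℂ)).closure
  refine h.mono fun f _ => ?_
  have h1 := lp.hasSum_single (p := 2) (by norm_num) f
  refine mem_closure_of_tendsto h1 (Eventually.of_forall fun s => ?_)
  refine Submodule.sum_mem _ fun i _ => ?_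
  have : lp.single 2 i (f i) = f i • ee i := by
    unfold ee
    rw [← lp.single_smul]
    simp
  rw [this]
  exact Submodule.smul_mem _ _ (Submodule.subset_span ⟨i, rfl⟩)

def Inv1 (U : Set ℂ) (n0 : ℕ) (n : ℕ) (g : ℕ → ℂ) : Prop :=
  n0 ≤ n ∧ Set.InjOn g (Set.Iio n) ∧ ∀ i, n0 ≤ i → i < n → g i ∈ U

theorem ext_one {U V : Set ℂ} {n0 n : ℕ} {g : ℕ → ℂ} (h : Inv1 U n0 n g) (hV : V.Infinite)
    (hVU : V ⊆ U) : ∃ g' : ℕ → ℂ, (∀ i < n, g' i = g i) ∧ Inv1 U n0 (n + 1) g' ∧ g' n ∈ V := by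
  obtain ⟨l, hl1, hl2⟩ := (hV.sdiff ((Set.finite_lt_nat n).image g)).nonempty
  have e1 : ∀ i < n, Function.update g n l i = g i := fun i hi => Function.update_of_ne hi.ne _ _
  refine ⟨Function.update g n l, e1, ⟨h.1.trans (Nat.le_succ n), ?_, fun i h1 h2 => ?_⟩,
    by simpa using hl1⟩
  · intro i hi j hj hij
    rcases (Nat.lt_succ_iff.1 hi).lt_or_eq with hi | rfl <;>
      rcases (Nat.lt_succ_iff.1 hj).lt_or_eq with hj | rfl
    · rw [e1 i hi, e1 j hj] at hij
      exact h.2.1 hi hj hij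
    · rw [e1 i hi, Function.update_self] at hij
      exact (hl2 ⟨i, hi, hij⟩).elim
    · rw [e1 j hj, Function.update_self] at hij
      exact (hl2 ⟨j, hj, hij.symm⟩).elim
    · rfl
  · rcases (Nat.lt_succ_iff.1 h2).lt_or_eq with hi | rfl
    · rw [e1 i hi]
      exact h.2.2 i h1 hi
    · simpa using hVU hl1

theorem reach_span (U : Set ℂ) (hU : IsOpen U) (h1 : ∀ l ∈ U, ‖l‖ < 1) (n0 : ℕ) (v : L2)
    (hv : v ∈ Submodule.span ℂ (kk '' U)) :
    ∀ ε > 0, ∃ P, Reach kk (Inv1 U n0) P fun w => ‖v - w‖ ≤ ε := by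
  induction hv using Submodule.span_induction with
  | mem v hv =>
    obtain ⟨l, hl, rfl⟩ := hv
    intro ε hε
    refine ⟨‖kk l‖ + ε, fun n g hg => ?_⟩
    have hV : U ∩ kk ⁻¹' ball (kk l) ε ∈ 𝓝 l :=
      inter_mem (hU.mem_nhds hl) (kk_cont (h1 l hl) (ball_mem_nhds _ hε))
    obtain ⟨g', a1, a2, a3⟩ := ext_one hg (infinite_of_mem_nhds l hV) Set.inter_subset_left
    have a4 : ‖kk l - kk (g' n)‖ ≤ ε := by
      rw [← dist_eq_norm, dist_comm]
      exact le_of_lt a3.2
    refine ⟨n + 1, g', Nat.le_succ n, a1, a2, _,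
      (Step.single (fun i => kk (g' i)) n 1).mono ?_, by simpa using a4⟩
    have := norm_sub_le (kk l) (kk l - kk (g' n))
    rw [sub_sub_cancel] at this
    rw [one_smul]
    linarith
  | zero => exact fun ε hε => ⟨0, Reach.zero le_rfl (by simpa using hε.le)⟩
  | add v1 v2 _ _ ih1 ih2 =>
    intro ε hε
    obtain ⟨P1, b1⟩ := ih1 (ε / 2) (by linarith)
    obtain ⟨P2, b2⟩ := ih2 (ε / 2) (by linarith)
    refine ⟨P1 + |P2|, b1.concat (le_add_of_nonneg_right (abs_nonneg _)) fun w1 c1 c2 =>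
      b2.mono (by linarith [le_abs_self P2]) fun w2 c3 => ?_⟩
    rw [show v1 + v2 - (w1 + w2) = (v1 - w1) + (v2 - w2) by abel]
    exact (norm_add_le _ _).trans (by linarith)
  | smul a v _ ih =>
    intro ε hε
    obtain ⟨P, b⟩ := ih (ε / (‖a‖ + 1)) (by positivity)
    refine ⟨_, b.smul a fun w hw => ?_⟩
    rw [← smul_sub, norm_smul]
    rw [le_div_iff₀ (by positivity)] at hw
    nlinarith [norm_nonneg (v - w)]

theorem main : ∃ Λ : ℕ → ℂ, Function.Injective Λ ∧ (∀ n, ‖Λ n‖ < 1) ∧ Tendsto Λ atTop (𝓝 1) ∧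
    ∀ f : ℕ → ℂ, Summable (fun n => ‖f n‖ ^ 2) → ∃ c : ℕ → ℂ, Tendsto
      (fun N : ℕ => ∑' n : ℕ, ‖f n - ∑ k ∈ range N, c k * (starRingEnd ℂ (Λ k)) ^ n‖ ^ 2)
      atTop (𝓝 0) := by
  let U : ℕ → Set ℂ := fun j => ball 0 1 ∩ ball 1 (1 / ((j : ℝ) + 1))
  have hUo : ∀ j, IsOpen (U j) := fun j => isOpen_ball.inter isOpen_ball
  have hU1 : ∀ j, ∀ l ∈ U j, ‖l‖ < 1 := fun j l hl => by simpa using hl.1
  have hUn : ∀ j, (U j).Nonempty := fun j => by
    have : (1 : ℂ) ∈ closure (ball (0 : ℂ) 1) := by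
      rw [closure_ball _ one_ne_zero]; simp
    obtain ⟨z, h1, h2⟩ := mem_closure_iff_nhds.1 this _
      (ball_mem_nhds (1 : ℂ) (Nat.one_div_pos_of_nat (n := j)))
    exact ⟨z, h2, h1⟩
  obtain ⟨Λ, N, a1, a2, a3, a4⟩ := main_rep kk ⊤ Set.univ (Set.mem_univ _) sep_L2
    (by simp) (fun n g => Set.InjOn g (Set.Iio n)) (fun j n n' g => Inv1 (U j) n n' g)
    (by simp) (fun j n n' g g' h ⟨b1, b2, b3⟩ => ⟨b1, fun i hi l hl hil => b2 hi hl (by
      rwa [h i hi, h l hl] at hil), fun i c1 c2 => by rw [h i c2]; exact b3 i c1 c2⟩)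
    (by
      intro v _ j n g hg
      have hv : v ∈ closure (Submodule.span ℂ (kk '' U j) : Set L2) := by
        rw [← Submodule.topologicalClosure_coe, dense_kk _ (hUo j) (hUn j) (hU1 j)]
        trivial
      obtain ⟨v', b1, b2⟩ := Metric.mem_closure_iff.1 hv (1 / 8) (by norm_num)
      rw [dist_eq_norm] at b2
      obtain ⟨P, b3⟩ := reach_span _ (hUo j) (hU1 j) n v' b1 (1 / 8) (by norm_num)
      obtain ⟨g1, c1, c2, -⟩ := ext_one (U := U j) (n0 := n) (n := n) (g := g)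
        ⟨le_rfl, hg, fun i h1 h2 => by omega⟩
        (infinite_of_mem_nhds _ ((hUo j).mem_nhds (hUn j).some_mem)) subset_rfl
      obtain ⟨n', g', d1, d2, d3, w, d4, d5⟩ := b3.avg (by norm_num) (n + 1) g1 c2
      refine ⟨n', g', d1, fun i hi => by rw [d2 i (by omega), c1 i hi], d3.2.1, d3, w, ?_, ?_⟩
      · have hn : ‖v'‖ ≤ ‖v‖ + 1 / 8 := by
          have := norm_sub_le v (v - v')
          rw [sub_sub_cancel] at this
          linarith
        have := (Step.zero _ n (n + 1)).concat d4 (Nat.le_succ n) d1 (P := ‖v‖ + 2)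
          (by positivity) (by rw [norm_zero]; linarith)
        rwa [zero_add] at this
      · rw [show v - w = (v - v') + (v' - w) by abel]
        exact (norm_add_le _ _).trans (by linarith))
  obtain ⟨b, hb1, -, hb3⟩ := exists_blk N a2 a1
  have hmem : ∀ i, Λ i ∈ U (b i) := fun i => (a3 (b i)).2.2 i (hb1 i).1 (hb1 i).2
  have hlt : ∀ i, ‖Λ i‖ < 1 := fun i => hU1 _ _ (hmem i)
  refine ⟨Λ, fun i l hil => ?_, hlt, ?_, fun f hf => ?_⟩
  · have h1 : max i l < N (max i l + 1) := (Nat.lt_succ_self _).trans_le (a2.id_le _)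
    exact (a3 (max i l)).2.1 ((le_max_left _ _).trans_lt h1) ((le_max_right _ _).trans_lt h1) hil
  · rw [tendsto_iff_dist_tendsto_zero]
    exact squeeze_zero (fun i => dist_nonneg) (fun i => le_of_lt (hmem i).2)
      (tendsto_one_div_add_atTop_nhds_zero_nat.comp hb3)
  · let F : L2 := ⟨f, memℓp_gen (by simpa using hf)⟩
    obtain ⟨c, hc⟩ := a4 (fun _ => trivial) F trivial
    refine ⟨c, ?_⟩
    have h1 := (tendsto_iff_norm_sub_tendsto_zero.1 hc).pow 2
    rw [zero_pow two_ne_zero] at h1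
    refine h1.congr fun M => ?_
    have h2 := lp.norm_rpow_eq_tsum (p := 2) (by norm_num) (F - ∑ i ∈ range M, c i • kk (Λ i))
    rw [norm_sub_rev]
    simp only [ENNReal.toReal_ofNat, Real.rpow_ofNat] at h2
    rw [h2]
    refine tsum_congr fun n => ?_
    congr 2
    rw [lp.coeFn_sub, lp.coeFn_sum, Pi.sub_apply, Finset.sum_apply]
    congr 1
    refine sum_congr rfl fun i _ => ?_
    rw [lp.coeFn_smul, Pi.smul_apply, kk, ser_apply (by simpa using hlt i), smul_eq_mul]

end Pool.Agent.H.MP_321233_an
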