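import Mathlib

set_option autoImplicit false
open Filter Topology Finset

namespace Pool.Agent.H.MP_321233_an

variable {X : Type*} [NormedAddCommGroup X] [NormedSpace ℂ X]

def Step (x : ℕ → X) (n0 n1 : ℕ) (w : X) (P : ℝ) : Prop :=
  ∃ c : ℕ → ℂ, (∀ n, n0 ≤ n → n ≤ n1 → ‖∑ i ∈ Ico n0 n, c i • x i‖ ≤ P) ∧
    ∑ i ∈ Ico n0 n1, c i • x i = w

variable {x y : ℕ → X} {n0 n1 n2 : ℕ} {w w1 w2 : X} {P P1 P2 : ℝ}

theorem Step.congr (h : Step x n0 n1 w P) (hxy : ∀ i, n0 ≤ i → i < n1 → y i = x i) :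
    Step y n0 n1 w P := by
  obtain ⟨c, h1, h2⟩ := h
  have e : ∀ n, n ≤ n1 → ∑ i ∈ Ico n0 n, c i • y i = ∑ i ∈ Ico n0 n, c i • x i := fun n hn =>
    sum_congr rfl fun i hi => by
      rw [mem_Ico] at hi
      rw [hxy i hi.1 (by omega)]
  exact ⟨c, fun n a b => by rw [e n b]; exact h1 n a b, by rw [e n1 le_rfl, h2]⟩

theorem Step.mono (h : Step x n0 n1 w P) (hP : P ≤ P1) : Step x n0 n1 w P1 := by
  obtain ⟨c, h1, h2⟩ := h
  exact ⟨c, fun n a b => (h1 n a b).trans hP, h2⟩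

theorem Step.norm_le (h : Step x n0 n1 w P) (h01 : n0 ≤ n1) : ‖w‖ ≤ P := by
  obtain ⟨c, h1, h2⟩ := h
  rw [← h2]
  exact h1 n1 h01 le_rfl

theorem Step.mem (h : Step x n0 n1 w P) (H : Submodule ℂ X) (hx : ∀ i, x i ∈ H) : w ∈ H := by
  obtain ⟨c, h1, h2⟩ := h
  rw [← h2]
  exact H.sum_mem fun i _ => H.smul_mem _ (hx i)

theorem Step.zero (x : ℕ → X) (n0 n1 : ℕ) : Step x n0 n1 0 0 :=
  ⟨fun _ => 0, fun n _ _ => by simp, by simp⟩

theorem Step.single (x : ℕ → X) (n : ℕ) (a : ℂ) : Step x n (n + 1) (a • x n) ‖a • x n‖ := by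
  refine ⟨fun _ => a, fun m h1 h2 => ?_, by simp⟩
  rcases (show m = n ∨ m = n + 1 by omega) with rfl | rfl
  · simp only [Ico_self, sum_empty, norm_zero]
    exact norm_nonneg _
  · simp

theorem Step.smul (h : Step x n0 n1 w P) (a : ℂ) : Step x n0 n1 (a • w) (‖a‖ * P) := by
  obtain ⟨c, h1, h2⟩ := h
  have e : ∀ n, ∑ i ∈ Ico n0 n, (a * c i) • x i = a • ∑ i ∈ Ico n0 n, c i • x i := fun n => by
    rw [smul_sum]
    exact sum_congr rfl fun i _ => mul_smul _ _ _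
  refine ⟨fun i => a * c i, fun n ha hb => ?_, by rw [e, h2]⟩
  rw [e, norm_smul]
  exact mul_le_mul_of_nonneg_left (h1 n ha hb) (norm_nonneg _)

theorem Step.add (h : Step x n0 n1 w1 P1) (h' : Step x n0 n1 w2 P2) :
    Step x n0 n1 (w1 + w2) (P1 + P2) := by
  obtain ⟨c, h1, h2⟩ := h
  obtain ⟨d, h3, h4⟩ := h'
  have e : ∀ n, ∑ i ∈ Ico n0 n, (c i + d i) • x i =
      ∑ i ∈ Ico n0 n, c i • x i + ∑ i ∈ Ico n0 n, d i • x i := fun n => by
    rw [← sum_add_distrib]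
    exact sum_congr rfl fun i _ => add_smul _ _ _
  refine ⟨fun i => c i + d i, fun n ha hb => ?_, by rw [e, h2, h4]⟩
  rw [e]
  exact (norm_add_le _ _).trans (add_le_add (h1 n ha hb) (h3 n ha hb))

theorem Step.concat (h : Step x n0 n1 w1 P1) (h' : Step x n1 n2 w2 P2) (h01 : n0 ≤ n1)
    (h12 : n1 ≤ n2) (hP : P1 ≤ P) (hP' : ‖w1‖ + P2 ≤ P) : Step x n0 n2 (w1 + w2) P := by
  obtain ⟨c, h1, h2⟩ := h
  obtain ⟨d, h3, h4⟩ := h'
  have e1 : ∀ n, n ≤ n1 → ∑ i ∈ Ico n0 n, (if i < n1 then c i else d i) • x i =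
      ∑ i ∈ Ico n0 n, c i • x i := fun n hn => sum_congr rfl fun i hi => by
    rw [mem_Ico] at hi
    rw [if_pos (by omega)]
  have e2 : ∀ n, n1 ≤ n → ∑ i ∈ Ico n0 n, (if i < n1 then c i else d i) • x i =
      w1 + ∑ i ∈ Ico n1 n, d i • x i := fun n hn => by
    rw [← sum_Ico_consecutive _ h01 hn, e1 n1 le_rfl, h2]
    congr 1
    exact sum_congr rfl fun i hi => by
      rw [mem_Ico] at hi
      rw [if_neg (by omega)]
  refine ⟨fun i => if i < n1 then c i else d i, fun n ha hb => ?_, by rw [e2 n2 h12, h4]⟩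
  rcases le_total n n1 with hn | hn
  · rw [e1 n hn]
    exact (h1 n ha hn).trans hP
  · rw [e2 n hn]
    exact (norm_add_le _ _).trans ((add_le_add_right (h3 n hn hb) _).trans hP')

theorem exists_blk (N : ℕ → ℕ) (hN : StrictMono N) (h0 : N 0 = 0) : ∃ b : ℕ → ℕ,
    (∀ i, N (b i) ≤ i ∧ i < N (b i + 1)) ∧ (∀ k i, N k ≤ i → i < N (k + 1) → b i = k) ∧
    Tendsto b atTop atTop := by
  have hex : ∀ i, ∃ k, N k ≤ i ∧ i < N (k + 1) := by
    intro i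
    induction i with
    | zero => exact ⟨0, h0.le, by have := hN (Nat.zero_lt_one); simpa [h0] using this⟩
    | succ i ih =>
      obtain ⟨k, h1, h2⟩ := ih
      by_cases h : i + 1 < N (k + 1)
      · exact ⟨k, by omega, h⟩
      · have := hN (Nat.lt_succ_self (k + 1))
        exact ⟨k + 1, by omega, by simp only [Nat.succ_eq_add_one] at this; omega⟩
  choose b hb using hex
  have hle : ∀ k i, N k ≤ i → k ≤ b i := fun k i h =>
    Nat.lt_succ_iff.1 (hN.lt_iff_lt.1 (h.trans_lt (hb i).2))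
  refine ⟨b, hb, fun k i h1 h2 => le_antisymm ?_ (hle k i h1), ?_⟩
  · exact Nat.lt_succ_iff.1 (hN.lt_iff_lt.1 ((hb i).1.trans_lt h2))
  · exact tendsto_atTop_atTop.2 fun k => ⟨N k, fun i hi => hle k i hi⟩

theorem represent (x : ℕ → X) (H : Submodule ℂ X) (hx : ∀ i, x i ∈ H) (C : ℝ)
    (hS : ∀ v ∈ H, ∀ n0, ∃ n1 > n0, ∃ w, Step x n0 n1 w (C * ‖v‖) ∧ ‖v - w‖ ≤ ‖v‖ / 2)
    (f : X) (hf : f ∈ H) :
    ∃ c : ℕ → ℂ, Tendsto (fun n => ∑ i ∈ range n, c i • x i) atTop (𝓝 f) := by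
  choose! n1 hn1 w hw1 hw2 using hS
  let st : ℕ → ℕ × X := fun k => Nat.rec (0, f) (fun _ s => (n1 s.2 s.1, s.2 - w s.2 s.1)) k
  have hst : ∀ k, st (k + 1) = (n1 (st k).2 (st k).1, (st k).2 - w (st k).2 (st k).1) :=
    fun k => rfl
  have hst0 : st 0 = (0, f) := rfl
  clear_value st
  have hH : ∀ k, (st k).2 ∈ H := by
    intro k
    induction k with
    | zero => rw [hst0]; exact hf
    | succ k ih => rw [hst]; exact H.sub_mem ih ((hw1 _ ih _).mem H hx)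
  have hN : StrictMono fun k => (st k).1 := strictMono_nat_of_lt_succ fun k => by
    rw [hst]; exact hn1 _ (hH k) _
  have hv : ∀ k, ‖(st k).2‖ ≤ (1 / 2) ^ k * ‖f‖ := by
    intro k
    induction k with
    | zero => simp [hst0]
    | succ k ih =>
      rw [hst, pow_succ]
      have := hw2 _ (hH k) (st k).1
      simp only
      linarith
  obtain ⟨b, hb1, hb2, hb3⟩ := exists_blk _ hN (by rw [hst0])
  have hs : ∀ k, Step x (st k).1 (st (k + 1)).1 ((st k).2 - (st (k + 1)).2) (C * ‖(st k).2‖) := by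
    intro k
    rw [hst]
    simpa using hw1 _ (hH k) (st k).1
  choose c hc1 hc2 using hs
  have e : ∀ k n, n ≤ (st (k + 1)).1 → ∑ i ∈ Ico (st k).1 n, c (b i) i • x i =
      ∑ i ∈ Ico (st k).1 n, c k i • x i := fun k n hn => sum_congr rfl fun i hi => by
    rw [mem_Ico] at hi
    rw [hb2 k i hi.1 (by omega)]
  have e2 : ∀ k, ∑ i ∈ range (st k).1, c (b i) i • x i = f - (st k).2 := by
    intro k
    induction k with
    | zero => simp [hst0]
    | succ k ih =>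
      rw [← sum_range_add_sum_Ico _ (hN.monotone (Nat.le_succ k)), ih, e k _ le_rfl, hc2]
      abel
  refine ⟨fun i => c (b i) i, ?_⟩
  rw [tendsto_iff_norm_sub_tendsto_zero]
  have l1 := ((tendsto_pow_atTop_nhds_zero_of_lt_one (r := (1 / 2 : ℝ)) (by norm_num)
    (by norm_num)).comp hb3).mul_const ((1 + |C|) * ‖f‖)
  rw [zero_mul] at l1
  refine squeeze_zero (fun n => norm_nonneg _) (fun n => ?_) l1
  rw [← sum_range_add_sum_Ico _ (hb1 n).1, e2, e _ _ (hb1 n).2.le]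
  have h1 := hc1 (b n) n (hb1 n).1 (hb1 n).2.le
  have h2 := hv (b n)
  have h3 := mul_le_mul_of_nonneg_left h2 (abs_nonneg C)
  have h4 := mul_le_mul_of_nonneg_right (le_abs_self C) (norm_nonneg (st (b n)).2)
  rw [show ∀ s : X, f - (st (b n)).2 + s - f = s - (st (b n)).2 from fun s => by abel]
  refine (norm_sub_le _ _).trans ?_
  simp only [Function.comp]
  nlinarith

def Reach (k : ℂ → X) (Inv : ℕ → (ℕ → ℂ) → Prop) (P : ℝ) (W : X → Prop) : Prop :=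
  ∀ n g, Inv n g → ∃ n' g', n ≤ n' ∧ (∀ i < n, g' i = g i) ∧ Inv n' g' ∧
    ∃ w, Step (fun i => k (g' i)) n n' w P ∧ W w

variable {k : ℂ → X} {Inv : ℕ → (ℕ → ℂ) → Prop} {W W1 : X → Prop}

theorem Reach.zero (hP : 0 ≤ P) (hW : W 0) : Reach k Inv P W := fun n g h =>
  ⟨n, g, le_rfl, fun _ _ => rfl, h, 0, (Step.zero _ _ _).mono hP, hW⟩

theorem Reach.smul (h : Reach k Inv P W) (a : ℂ) (hW : ∀ w, W w → W1 (a • w)) :
    Reach k Inv (‖a‖ * P) W1 := fun n g hg => by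
  obtain ⟨n', g', h1, h2, h3, w, h4, h5⟩ := h n g hg
  exact ⟨n', g', h1, h2, h3, a • w, h4.smul a, hW w h5⟩

theorem Reach.mono (h : Reach k Inv P W) (hP : P ≤ P1) (hW : ∀ w, W w → W1 w) :
    Reach k Inv P1 W1 := fun n g hg => by
  obtain ⟨n', g', h1, h2, h3, w, h4, h5⟩ := h n g hg
  exact ⟨n', g', h1, h2, h3, w, h4.mono hP, hW w h5⟩

theorem Reach.concat (h : Reach k Inv P1 W1) (hP : P1 ≤ P)
    (h' : ∀ w1, W1 w1 → ‖w1‖ ≤ P1 → Reach k Inv (P - ‖w1‖) fun w2 => W (w1 + w2)) :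
    Reach k Inv P W := fun n g hg => by
  obtain ⟨n', g', h1, h2, h3, w, h4, h5⟩ := h n g hg
  obtain ⟨n'', g'', a1, a2, a3, w', a4, a5⟩ := h' w h5 (h4.norm_le h1) n' g' h3
  refine ⟨n'', g'', h1.trans a1, fun i hi => by rw [a2 i (by omega), h2 i hi], a3, w + w', ?_, a5⟩
  exact (h4.congr fun i _ hi => by rw [a2 i hi]).concat a4 h1 a1 hP (by linarith)

theorem Reach.avg {v : X} {ε : ℝ} (hε : 0 ≤ ε) (h : Reach k Inv P fun w => ‖v - w‖ ≤ ε) :
    Reach k Inv (‖v‖ + ε + 1) fun w => ‖v - w‖ ≤ ε := by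
  obtain ⟨M, hM⟩ := exists_nat_gt (max P 0)
  have hM0 : (0 : ℝ) < M := (le_max_right _ _).trans_lt hM
  have hMP : P ≤ M := (le_max_left _ _).trans hM.le
  have hn := norm_nonneg v
  have key : ∀ m : ℕ, Reach k Inv (m * (‖v‖ + ε) + M) fun w => ‖(m : ℂ) • v - w‖ ≤ m * ε := by
    intro m
    induction m with
    | zero => exact Reach.zero (by simp) (by simp)
    | succ m ih =>
      refine ih.concat (by push_cast; nlinarith) fun w1 h1 _ => h.mono ?_ fun w2 h2 => ?_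
      · have : ‖w1‖ ≤ ‖(m : ℂ) • v‖ + ‖(m : ℂ) • v - w1‖ := by
          simpa using norm_sub_le ((m : ℂ) • v) ((m : ℂ) • v - w1)
        rw [norm_smul, Complex.norm_natCast] at this
        push_cast
        nlinarith
      · rw [show ((m + 1 : ℕ) : ℂ) • v - (w1 + w2) = ((m : ℂ) • v - w1) + (v - w2) by
          push_cast; rw [add_smul, one_smul]; abel]
        refine (norm_add_le _ _).trans ?_
        push_cast
        linarith
  have hMc : (M : ℂ) ≠ 0 := by exact_mod_cast hM0.ne'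
  refine ((key M).smul (M : ℂ)⁻¹ (W1 := fun w => ‖v - w‖ ≤ ε) fun w hw => ?_).mono
    (le_of_eq ?_) fun _ h => h
  · rw [show v - (M : ℂ)⁻¹ • w = (M : ℂ)⁻¹ • ((M : ℂ) • v - w) by
      rw [smul_sub, smul_smul, inv_mul_cancel₀ hMc, one_smul], norm_smul, norm_inv,
      Complex.norm_natCast, inv_mul_le_iff₀ hM0]
    exact hw
  · rw [norm_inv, Complex.norm_natCast]
    field_simp

theorem build (J : ℕ → (ℕ → ℂ) → Prop) (R : ℕ → ℕ → ℕ → (ℕ → ℂ) → Prop) (h0 : J 0 0)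
    (hc : ∀ j n n' g g', (∀ i < n', g' i = g i) → R j n n' g → R j n n' g')
    (hs : ∀ j n g, J n g → ∃ n' g', n < n' ∧ (∀ i < n, g' i = g i) ∧ J n' g' ∧ R j n n' g') :
    ∃ (Λ : ℕ → ℂ) (N : ℕ → ℕ), N 0 = 0 ∧ StrictMono N ∧ ∀ j, R j (N j) (N (j + 1)) Λ := by
  choose! n' g' h1 h2 h3 h4 using hs
  let st : ℕ → ℕ × (ℕ → ℂ) := fun j => Nat.rec (0, 0) (fun j s => (n' j s.1 s.2, g' j s.1 s.2)) j
  have hst : ∀ j, st (j + 1) = (n' j (st j).1 (st j).2, g' j (st j).1 (st j).2) := fun k => rfl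
  have hst0 : st 0 = (0, 0) := rfl
  clear_value st
  have hJ : ∀ j, J (st j).1 (st j).2 := by
    intro j
    induction j with
    | zero => rw [hst0]; exact h0
    | succ j ih => rw [hst]; exact h3 _ _ _ ih
  have hN : StrictMono fun j => (st j).1 := strictMono_nat_of_lt_succ fun j => by
    rw [hst]; exact h1 _ _ _ (hJ j)
  have hag : ∀ j l, j ≤ l → ∀ i < (st j).1, (st l).2 i = (st j).2 i := by
    intro j l hjl
    induction l, hjl using Nat.le_induction with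
    | base => exact fun _ _ => rfl
    | succ l hjl ih =>
      intro i hi
      rw [← ih i hi, hst]
      exact h2 _ _ _ (hJ l) i (hi.trans_le (hN.monotone hjl))
  refine ⟨fun i => (st (i + 1)).2 i, fun j => (st j).1, by simp only [hst0], hN, fun j => ?_⟩
  refine hc j _ _ (st (j + 1)).2 _ (fun i hi => ?_) (by simp only [hst]; exact h4 _ _ _ (hJ j))
  have hi' : i < (st (i + 1)).1 := (Nat.lt_succ_self i).trans_le (hN.id_le (i + 1))
  rcases le_total (i + 1) (j + 1) with h | h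
  · exact (hag _ _ h i hi').symm
  · exact hag _ _ h i hi

theorem main_rep (k : ℂ → X) (H : Submodule ℂ X) (D : Set X) (hD0 : (0 : X) ∈ D)
    (hsep : TopologicalSpace.IsSeparable D) (hH : (H : Set X) ⊆ closure D)
    (J : ℕ → (ℕ → ℂ) → Prop) (R : ℕ → ℕ → ℕ → (ℕ → ℂ) → Prop) (h0 : J 0 0)
    (hc : ∀ j n n' g g', (∀ i < n', g' i = g i) → R j n n' g → R j n n' g')
    (hs : ∀ v ∈ D, ∀ j n g, J n g → ∃ n' g', n < n' ∧ (∀ i < n, g' i = g i) ∧ J n' g' ∧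
      R j n n' g' ∧ ∃ w, Step (fun i => k (g' i)) n n' w (‖v‖ + 2) ∧ ‖v - w‖ ≤ 1 / 4) :
    ∃ (Λ : ℕ → ℂ) (N : ℕ → ℕ), N 0 = 0 ∧ StrictMono N ∧ (∀ j, R j (N j) (N (j + 1)) Λ) ∧
      ((∀ i, k (Λ i) ∈ H) → ∀ f ∈ H,
        ∃ c : ℕ → ℂ, Tendsto (fun n => ∑ i ∈ range n, c i • k (Λ i)) atTop (𝓝 f)) := by
  obtain ⟨T, hTD, hTc, hTd⟩ := hsep.exists_countable_dense_subset
  have hTne : T.Nonempty := closure_nonempty_iff.1 ⟨0, hTd hD0⟩
  obtain ⟨t, ht⟩ := hTc.exists_eq_range hTne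
  have htD : ∀ j, t j ∈ D := fun j => hTD (ht ▸ Set.mem_range_self j)
  obtain ⟨Λ, N, a1, a2, a3⟩ := build J (fun j n n' g => R j n n' g ∧
    ∃ w, Step (fun i => k (g i)) n n' w (‖t j.unpair.1‖ + 2) ∧ ‖t j.unpair.1 - w‖ ≤ 1 / 4) h0
    (fun j n n' g g' h ⟨b1, w, b2, b3⟩ =>
      ⟨hc j n n' g g' h b1, w, b2.congr fun i _ hi => by rw [h i hi], b3⟩)
    (fun j n g hg => hs _ (htD _) j n g hg)
  refine ⟨Λ, N, a1, a2, fun j => (a3 j).1, fun hk => represent _ H hk 4 fun v hv m => ?_⟩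
  by_cases hv0 : v = 0
  · exact ⟨m + 1, Nat.lt_succ_self m, 0, (Step.zero _ _ _).mono (by positivity), by simp [hv0]⟩
  have hn : 0 < ‖v‖ := norm_pos_iff.2 hv0
  have hnc : ((‖v‖ : ℝ) : ℂ) ≠ 0 := by exact_mod_cast hn.ne'
  have hu : ((‖v‖ : ℝ) : ℂ)⁻¹ • v ∈ closure T :=
    closure_minimal hTd isClosed_closure (hH (H.smul_mem _ hv))
  obtain ⟨u, hu1, hu2⟩ := Metric.mem_closure_iff.1 hu (1 / 4) (by norm_num)
  rw [ht] at hu1
  obtain ⟨a, rfl⟩ := hu1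
  rw [dist_eq_norm] at hu2
  obtain ⟨-, w, b2, b3⟩ := a3 (Nat.pair a m)
  rw [Nat.unpair_pair] at b2 b3
  have hm : m ≤ N (Nat.pair a m) := (Nat.right_le_pair a m).trans (a2.id_le _)
  have hlt := a2 (Nat.lt_succ_self (Nat.pair a m))
  have hu3 : ‖((‖v‖ : ℝ) : ℂ)⁻¹ • v‖ = 1 := by
    rw [norm_smul, norm_inv, Complex.norm_real, norm_norm, inv_mul_cancel₀ hn.ne']
  have hta : ‖t a‖ ≤ 2 := by
    have := norm_sub_le (((‖v‖ : ℝ) : ℂ)⁻¹ • v) (((‖v‖ : ℝ) : ℂ)⁻¹ • v - t a)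
    rw [sub_sub_cancel, hu3] at this
    linarith
  have hst := ((Step.zero _ m _).concat b2 hm hlt.le (P := 4) (by norm_num)
    (by simp only [norm_zero]; linarith)).smul ((‖v‖ : ℝ) : ℂ)
  rw [zero_add, Complex.norm_real, norm_norm, mul_comm] at hst
  refine ⟨_, hm.trans_lt hlt, _, hst, ?_⟩
  rw [show v - ((‖v‖ : ℝ) : ℂ) • w = ((‖v‖ : ℝ) : ℂ) • ((((‖v‖ : ℝ) : ℂ)⁻¹ • v - t a) + (t a - w)) by
    rw [sub_add_sub_cancel, smul_sub, smul_smul, mul_inv_cancel₀ hnc, one_smul], norm_smul,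
    Complex.norm_real, norm_norm]
  have := norm_add_le (((‖v‖ : ℝ) : ℂ)⁻¹ • v - t a) (t a - w)
  simp only at b3
  nlinarith

end Pool.Agent.H.MP_321233_an
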